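import Pool.Agent.Y746.OM.Stm
import Pool.Agent.H447R2.ML.Q1

/-!
Job OM-NT (MP_db1c88_nt): reciprocal sums over the primes in `(L, L ^ 2]` by a decomposition into
intervals `(z, e ^ l z]` (cited: `Pool.Agent.H447R2.ML.RL_tendsto`).
-/

set_option autoImplicit false

namespace Pool.Agent.Y872.OM

open Finset Filter Topology
open Pool.Agent.H447R2.ML (RL RL_tendsto)
open Pool.Agent.Y746.OM (S_NT)

noncomputable section

/-- the primes in `(z, w]` -/
def PR (z w : ℝ) : Finset ℕ := (Icc 1 ⌊w⌋₊).filter (fun p : ℕ => p.Prime ∧ z < (p : ℝ))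

theorem mem_PR {z w : ℝ} (hw : 0 ≤ w) {p : ℕ} :
    p ∈ PR z w ↔ p.Prime ∧ z < (p : ℝ) ∧ (p : ℝ) ≤ w := by
  unfold PR
  rw [mem_filter, mem_Icc, Nat.le_floor_iff hw]
  constructor
  · rintro ⟨⟨_, h1⟩, h2, h3⟩
    exact ⟨h2, h3, h1⟩
  · rintro ⟨h1, h2, h3⟩
    exact ⟨⟨h1.one_lt.le, h3⟩, h1, h2⟩

theorem RL_sum {l z : ℝ} (hz : 0 ≤ z) : RL l z = ∑ p ∈ PR z (Real.exp l * z), (1 : ℝ) / p := by
  have hw : 0 ≤ Real.exp l * z := mul_nonneg (Real.exp_pos l).le hz
  unfold RL
  have h1 : ∀ k : ℕ, (k : ℝ)⁻¹ * Pool.Agent.H305R2.pr k = if k.Prime then (1 : ℝ) / k else 0 := by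
    intro k
    unfold Pool.Agent.H305R2.pr
    split_ifs <;> simp
  rw [Finset.sum_congr rfl fun k _ => h1 k, ← Finset.sum_filter]
  refine Finset.sum_congr ?_ fun _ _ => rfl
  ext p
  rw [mem_PR hw, mem_filter, mem_Ioc, Nat.floor_lt hz, Nat.le_floor_iff hw]
  constructor
  · rintro ⟨⟨h1, h2⟩, h3⟩
    exact ⟨h3, h1, h2⟩
  · rintro ⟨h1, h2, h3⟩
    exact ⟨⟨h2, h3⟩, h1⟩

theorem sin_ge_half {y : ℝ} (h1 : Real.pi / 6 ≤ y) (h2 : y ≤ 5 * Real.pi / 6) :
    1 / 2 ≤ Real.sin y := by
  have hpi := Real.pi_pos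
  rcases le_total y (Real.pi / 2) with h | h
  · rw [← Real.sin_pi_div_six]
    exact Real.sin_le_sin_of_le_of_le_pi_div_two (by linarith) h h1
  · rw [← Real.sin_pi_div_six, ← Real.sin_pi_sub y]
    exact Real.sin_le_sin_of_le_of_le_pi_div_two (by linarith) (by linarith) (by linarith)

/-- upper bounds by a decomposition into intervals `(L e^j, L e^(j+1)]` -/
theorem upper {L : ℝ} (hL : 1 ≤ L) (f : ℕ → ℝ) (hf : ∀ p, 0 ≤ f p) :
    ∑ p ∈ PR L (L ^ 2), f p ≤ ∑ j ∈ range ⌈Real.log L⌉₊,
      ∑ p ∈ PR (L * Real.exp j) (Real.exp 1 * (L * Real.exp j)), f p := by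
  have hL0 : 0 < L := by linarith
  have hmaps : ∀ p ∈ PR L (L ^ 2), ⌈Real.log (p / L)⌉₊ - 1 ∈ range ⌈Real.log L⌉₊ := by
    intro p hp
    rw [mem_PR (by positivity)] at hp
    obtain ⟨_, h2, h3⟩ := hp
    have hp0 : 0 < (p : ℝ) := hL0.trans h2
    have h4 : Real.log (p / L) ≤ Real.log L := by
      apply Real.log_le_log (div_pos hp0 hL0)
      rw [div_le_iff₀ hL0]
      nlinarith
    have h5 : 0 < Real.log (p / L) := by
      apply Real.log_pos
      rw [one_lt_div hL0]
      exact h2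
    have h6 := Nat.ceil_le_ceil h4
    have h7 := Nat.ceil_pos.2 h5
    rw [mem_range]
    omega
  rw [← Finset.sum_fiberwise_of_maps_to hmaps]
  refine Finset.sum_le_sum fun j _ => ?_
  refine Finset.sum_le_sum_of_subset_of_nonneg ?_ fun p _ _ => hf p
  intro p hp
  rw [mem_filter, mem_PR (by positivity)] at hp
  obtain ⟨⟨h1, h2, _⟩, h4⟩ := hp
  have hp0 : 0 < (p : ℝ) := hL0.trans h2
  have h5 : 0 < Real.log (p / L) := by
    apply Real.log_pos
    rw [one_lt_div hL0]
    exact h2
  have h7 := Nat.ceil_pos.2 h5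
  have h8 : ⌈Real.log (p / L)⌉₊ = j + 1 := by omega
  rw [Nat.ceil_eq_iff (Nat.succ_ne_zero j)] at h8
  obtain ⟨h9, h10⟩ := h8
  have h9 : (j : ℝ) < Real.log (p / L) := by simpa using h9
  have h10 : Real.log (p / L) ≤ (j : ℝ) + 1 := by exact_mod_cast h10
  have h11 : Real.exp (Real.log (p / L)) = p / L := Real.exp_log (by positivity)
  rw [mem_PR (by positivity)]
  refine ⟨h1, ?_, ?_⟩
  · have h12 := Real.exp_lt_exp.2 h9
    rw [h11, lt_div_iff₀ hL0] at h12
    linarith
  · have h12 := Real.exp_le_exp.2 h10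
    rw [h11, div_le_iff₀ hL0, Real.exp_add] at h12
    calc (p : ℝ) ≤ Real.exp j * Real.exp 1 * L := h12
      _ = _ := by ring

/-- telescoping -/
theorem sum_inv_le {ℓ : ℝ} (hℓ : 2 ≤ ℓ) (J : ℕ) :
    ∑ j ∈ range J, 1 / (ℓ + j) ≤ Real.log (ℓ - 1 + J) - Real.log (ℓ - 1) := by
  have h1 : ∀ j ∈ range J, 1 / (ℓ + j) ≤ Real.log (ℓ - 1 + ((j + 1 : ℕ) : ℝ)) -
      Real.log (ℓ - 1 + (j : ℝ)) := by
    intro j _
    have hj : (0 : ℝ) ≤ j := Nat.cast_nonneg j
    have e : ℓ - 1 + ((j + 1 : ℕ) : ℝ) = ℓ + j := by push_cast; ring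
    rw [e]
    have h2 : 0 < ℓ - 1 + (j : ℝ) := by linarith
    have h3 : 0 < ℓ + (j : ℝ) := by linarith
    have h4 := Real.log_le_sub_one_of_pos (div_pos h2 h3)
    rw [Real.log_div h2.ne' h3.ne'] at h4
    have h5 : (ℓ - 1 + (j : ℝ)) / (ℓ + j) - 1 = -(1 / (ℓ + j)) := by
      field_simp
      ring
    rw [h5] at h4
    linarith
  refine (Finset.sum_le_sum h1).trans (le_of_eq ?_)
  rw [Finset.sum_range_sub (fun j : ℕ => Real.log (ℓ - 1 + (j : ℝ)))]
  simp

/-- NT -/
theorem t_NT : S_NT := by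
  intro h hh
  have hpi := Real.pi_pos
  set l : ℝ := 4 * Real.pi / (3 * h) with hl
  have hl0 : 0 < l := by positivity
  have t1 := RL_tendsto (l := 1) one_pos
  have t2 := RL_tendsto hl0
  obtain ⟨z₁, hz₁⟩ := (((tendsto_order.1 t1).2 (11 / 10) (by norm_num)).and
    ((tendsto_order.1 t2).1 (l / 2) (by linarith))).exists_forall_of_atTop
  refine ⟨1 / 24, max (max 10 z₁) (Real.exp (100 + 7 * Real.pi / h)), by norm_num,
    (le_max_left _ _).trans (le_max_left _ _), fun L hL => ?_⟩
  have hL10 : 10 ≤ L := ((le_max_left _ _).trans (le_max_left _ _)).trans hL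
  have hLz : z₁ ≤ L := ((le_max_right _ _).trans (le_max_left _ _)).trans hL
  have hLe : Real.exp (100 + 7 * Real.pi / h) ≤ L := (le_max_right _ _).trans hL
  have hL0 : 0 < L := by linarith
  set ℓ := Real.log L with hℓ
  have hℓ1 : 100 + 7 * Real.pi / h ≤ ℓ := by
    rw [hℓ, Real.le_log_iff_exp_le hL0]
    exact hLe
  have hph : 0 < 7 * Real.pi / h := by positivity
  have hℓ100 : 100 ≤ ℓ := by linarith
  have hℓh : 7 * Real.pi ≤ h * ℓ := by
    have h1 : 7 * Real.pi / h ≤ ℓ := by linarith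
    rw [div_le_iff₀ hh] at h1
    linarith
  -- one interval from above
  have hup : ∀ j : ℕ, ∑ p ∈ PR (L * Real.exp j) (Real.exp 1 * (L * Real.exp j)), (1 : ℝ) / p ≤
      11 / 10 * (1 / (ℓ + j)) := by
    intro j
    have hj : (1 : ℝ) ≤ Real.exp j := Real.one_le_exp (Nat.cast_nonneg j)
    have hz : L ≤ L * Real.exp j := by nlinarith
    have h1 := (hz₁ (L * Real.exp j) (hLz.trans hz)).1
    rw [RL_sum (by positivity)] at h1
    have h2 : Real.log (L * Real.exp j) = ℓ + j := by
      rw [Real.log_mul hL0.ne' (Real.exp_pos _).ne', Real.log_exp]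
    rw [h2] at h1
    have h3 : 0 < ℓ + (j : ℝ) := by
      have := Nat.cast_nonneg (α := ℝ) j
      linarith
    rw [mul_one_div, le_div_iff₀ h3]
    exact h1.le
  have hJ1 : (⌈ℓ⌉₊ : ℝ) < ℓ + 1 := Nat.ceil_lt_add_one (by linarith)
  refine ⟨?_, ?_, ?_⟩
  · -- lower bound
    set k₁ : ℕ := ⌈(h * ℓ - Real.pi / 3) / (2 * Real.pi)⌉₊ with hk₁
    set k₂ : ℕ := ⌊(2 * (h * ℓ) - 5 * Real.pi / 3) / (2 * Real.pi)⌋₊ with hk₂
    set a : ℕ → ℝ := fun k => (Real.pi / 3 + 2 * Real.pi * k) / h with ha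
    have hal : ∀ k : ℕ, a k + l = (5 * Real.pi / 3 + 2 * Real.pi * k) / h := by
      intro k
      rw [ha, hl]
      field_simp
      ring
    have hlow : ∀ k ∈ Icc k₁ k₂, ℓ ≤ a k ∧ a k + l ≤ 2 * ℓ := by
      intro k hk
      rw [mem_Icc] at hk
      have h1 : (h * ℓ - Real.pi / 3) / (2 * Real.pi) ≤ k :=
        (Nat.le_ceil _).trans (by exact_mod_cast hk.1)
      have h2 : (k : ℝ) ≤ (2 * (h * ℓ) - 5 * Real.pi / 3) / (2 * Real.pi) := by
        refine le_trans (by exact_mod_cast hk.2) (Nat.floor_le ?_)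
        apply div_nonneg _ (by positivity)
        linarith
      rw [div_le_iff₀ (by positivity)] at h1
      rw [le_div_iff₀ (by positivity)] at h2
      constructor
      · show ℓ ≤ (Real.pi / 3 + 2 * Real.pi * k) / h
        rw [le_div_iff₀ hh]
        linarith
      · rw [hal, div_le_iff₀ hh]
        linarith
    have hone : ∀ k ∈ Icc k₁ k₂, l / (8 * ℓ) ≤
        ∑ p ∈ PR (Real.exp (a k)) (Real.exp l * Real.exp (a k)),
          |Real.sin (h * Real.log p / 2)| / p := by
      intro k hk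
      obtain ⟨b1, b2⟩ := hlow k hk
      have hz : L ≤ Real.exp (a k) := by
        rw [← Real.exp_log hL0]
        exact Real.exp_le_exp.2 b1
      have h1 := (hz₁ _ (hLz.trans hz)).2
      rw [Real.log_exp, RL_sum (Real.exp_pos _).le] at h1
      have h2 : ∀ p ∈ PR (Real.exp (a k)) (Real.exp l * Real.exp (a k)),
          1 / 2 * ((1 : ℝ) / p) ≤ |Real.sin (h * Real.log p / 2)| / p := by
        intro p hp
        rw [mem_PR (by positivity)] at hp
        obtain ⟨hp1, hp2, hp3⟩ := hp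
        have hp0 : 0 < (p : ℝ) := (Real.exp_pos _).trans hp2
        have c1 : a k < Real.log p := by
          rw [Real.lt_log_iff_exp_lt hp0]
          exact hp2
        have c2 : Real.log p ≤ a k + l := by
          rw [Real.log_le_iff_le_exp hp0, Real.exp_add, mul_comm]
          exact hp3
        have d1 : Real.pi / 3 + 2 * Real.pi * k < h * Real.log p := by
          have : (Real.pi / 3 + 2 * Real.pi * k) / h < Real.log p := c1
          rw [div_lt_iff₀ hh] at this
          linarith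
        have d2 : h * Real.log p ≤ 5 * Real.pi / 3 + 2 * Real.pi * k := by
          rw [hal, le_div_iff₀ hh] at c2
          linarith
        have e1 : 1 / 2 ≤ |Real.sin (h * Real.log p / 2)| := by
          have f1 : h * Real.log p / 2 = (h * Real.log p / 2 - k * Real.pi) + k * Real.pi := by
            ring
          rw [f1, Real.sin_add_nat_mul_pi, abs_mul, abs_pow, abs_neg, abs_one, one_pow, one_mul]
          exact (sin_ge_half (by linarith) (by linarith)).trans (le_abs_self _)
        rw [mul_one_div]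
        exact div_le_div_of_nonneg_right e1 hp0.le
      refine le_trans ?_ (Finset.sum_le_sum h2)
      rw [← Finset.mul_sum]
      have hak : 0 < a k := by linarith
      have h3 : l / 2 / a k ≤
          ∑ p ∈ PR (Real.exp (a k)) (Real.exp l * Real.exp (a k)), (1 : ℝ) / p := by
        rw [div_le_iff₀ hak]
        exact h1.le
      have h4 : l / 2 / (2 * ℓ) ≤ l / 2 / a k :=
        div_le_div_of_nonneg_left (by positivity) hak (by linarith)
      have h5 : l / (8 * ℓ) = 1 / 2 * (l / 2 / (2 * ℓ)) := by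
        field_simp
        ring
      rw [h5]
      linarith
    have hdisj : ((Icc k₁ k₂ : Finset ℕ) : Set ℕ).PairwiseDisjoint
        (fun k => PR (Real.exp (a k)) (Real.exp l * Real.exp (a k))) := by
      have key : ∀ k k' : ℕ, k < k' → Disjoint (PR (Real.exp (a k)) (Real.exp l * Real.exp (a k)))
          (PR (Real.exp (a k')) (Real.exp l * Real.exp (a k'))) := by
        intro k k' hkk
        rw [Finset.disjoint_left]
        intro p hp hp'
        rw [mem_PR (by positivity)] at hp hp'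
        have h1 := hp.2.2
        have h2 := hp'.2.1
        rw [← Real.exp_add, add_comm, hal] at h1
        have h3 : (5 * Real.pi / 3 + 2 * Real.pi * k) / h ≤ a k' := by
          show _ ≤ (Real.pi / 3 + 2 * Real.pi * k') / h
          apply div_le_div_of_nonneg_right _ hh.le
          have : (k : ℝ) + 1 ≤ k' := by exact_mod_cast hkk
          nlinarith
        have h4 := Real.exp_le_exp.2 h3
        linarith
      intro k _ k' _ hne
      rcases lt_or_gt_of_ne hne with h1 | h1
      · exact key k k' h1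
      · exact (key k' k h1).symm
    have hsub : (Icc k₁ k₂).biUnion
        (fun k => PR (Real.exp (a k)) (Real.exp l * Real.exp (a k))) ⊆ PR L (L ^ 2) := by
      intro p hp
      rw [mem_biUnion] at hp
      obtain ⟨k, hk, hp⟩ := hp
      obtain ⟨b1, b2⟩ := hlow k hk
      rw [mem_PR (by positivity)] at hp ⊢
      refine ⟨hp.1, ?_, ?_⟩
      · refine lt_of_le_of_lt ?_ hp.2.1
        rw [← Real.exp_log hL0]
        exact Real.exp_le_exp.2 b1
      · refine hp.2.2.trans ?_
        rw [← Real.exp_add, add_comm]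
        have h1 : L ^ 2 = Real.exp (2 * ℓ) := by
          rw [hℓ, two_mul, Real.exp_add, Real.exp_log hL0]
          ring
        rw [h1]
        exact Real.exp_le_exp.2 b2
    have hsum : ∑ k ∈ Icc k₁ k₂, l / (8 * ℓ) ≤
        ∑ p ∈ PR L (L ^ 2), |Real.sin (h * Real.log p / 2)| / p := by
      refine (Finset.sum_le_sum hone).trans ?_
      rw [← Finset.sum_biUnion hdisj]
      exact Finset.sum_le_sum_of_subset_of_nonneg hsub fun p _ _ => by positivity
    refine le_trans ?_ hsum
    rw [Finset.sum_const, nsmul_eq_mul, Nat.card_Icc]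
    have hc1 : (2 * (h * ℓ) - 5 * Real.pi / 3) / (2 * Real.pi) < (k₂ : ℝ) + 1 :=
      Nat.lt_floor_add_one _
    have hc2 : (k₁ : ℝ) < (h * ℓ - Real.pi / 3) / (2 * Real.pi) + 1 := by
      apply Nat.ceil_lt_add_one
      apply div_nonneg _ (by positivity)
      linarith
    have hc3 : h * ℓ / (4 * Real.pi) ≤ ((k₂ + 1 - k₁ : ℕ) : ℝ) := by
      have h1 : ((k₂ : ℝ) + 1) - k₁ ≤ ((k₂ + 1 - k₁ : ℕ) : ℝ) := by
        rcases le_total k₁ (k₂ + 1) with h2 | h2
        · rw [Nat.cast_sub h2]
          push_cast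
          exact le_rfl
        · have h3 : ((k₂ : ℝ) + 1) ≤ k₁ := by exact_mod_cast h2
          have h4 : (0 : ℝ) ≤ ((k₂ + 1 - k₁ : ℕ) : ℝ) := Nat.cast_nonneg _
          linarith
      refine le_trans ?_ h1
      have h2 : (2 * (h * ℓ) - 5 * Real.pi / 3) / (2 * Real.pi) -
          (h * ℓ - Real.pi / 3) / (2 * Real.pi) - 1 = h * ℓ / (2 * Real.pi) - 5 / 3 := by
        field_simp
        ring
      have h3 : h * ℓ / (2 * Real.pi) = 2 * (h * ℓ / (4 * Real.pi)) := by
        field_simp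
        ring
      have h4 : 7 / 4 ≤ h * ℓ / (4 * Real.pi) := by
        rw [le_div_iff₀ (by positivity)]
        linarith
      linarith
    have hfin : (1 : ℝ) / 24 = h * ℓ / (4 * Real.pi) * (l / (8 * ℓ)) := by
      rw [hl]
      have : ℓ ≠ 0 := by linarith
      field_simp
      norm_num
    rw [hfin]
    exact mul_le_mul_of_nonneg_right hc3 (by positivity)
  · -- reciprocals
    have h1 := upper (by linarith : 1 ≤ L) (fun p : ℕ => (1 : ℝ) / p) (fun p => by positivity)
    refine h1.trans ?_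
    refine (Finset.sum_le_sum fun j _ => hup j).trans ?_
    rw [← Finset.mul_sum]
    have h2 := sum_inv_le (ℓ := ℓ) (by linarith) ⌈ℓ⌉₊
    have h3 : Real.log (ℓ - 1 + ⌈ℓ⌉₊) - Real.log (ℓ - 1) ≤ Real.log 2 + 2 / 99 := by
      have h4 : Real.log (ℓ - 1 + ⌈ℓ⌉₊) ≤ Real.log (2 * ℓ) := by
        apply Real.log_le_log
        · have := Nat.cast_nonneg (α := ℝ) ⌈ℓ⌉₊
          linarith
        · linarith
      rw [Real.log_mul two_ne_zero (by linarith)] at h4
      have h5 : Real.log ℓ - Real.log (ℓ - 1) ≤ 2 / 99 := by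
        rw [← Real.log_div (by linarith) (by linarith)]
        have h6 := Real.log_le_sub_one_of_pos (div_pos (by linarith : 0 < ℓ)
          (by linarith : 0 < ℓ - 1))
        refine h6.trans ?_
        have h7 : ℓ / (ℓ - 1) - 1 = 1 / (ℓ - 1) := by
          have : ℓ - 1 ≠ 0 := by linarith
          field_simp
          ring
        rw [h7, div_le_div_iff₀ (by linarith) (by norm_num)]
        linarith
      linarith
    have h4 := Real.log_two_lt_d9
    nlinarith
  · -- logarithms
    have h1 := upper (by linarith : 1 ≤ L) (fun p : ℕ => Real.log p / p)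
      (fun p => div_nonneg (Real.log_natCast_nonneg p) (Nat.cast_nonneg p))
    refine h1.trans ?_
    have h2 : ∀ j ∈ range ⌈ℓ⌉₊, ∑ p ∈ PR (L * Real.exp j) (Real.exp 1 * (L * Real.exp j)),
        Real.log p / p ≤ 12 / 10 := by
      intro j _
      have hj : (0 : ℝ) ≤ j := Nat.cast_nonneg j
      have h3 : ∀ p ∈ PR (L * Real.exp j) (Real.exp 1 * (L * Real.exp j)),
          Real.log p / p ≤ (ℓ + j + 1) * ((1 : ℝ) / p) := by
        intro p hp
        rw [mem_PR (by positivity)] at hp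
        have hp0 : 0 < (p : ℝ) := lt_trans (by positivity) hp.2.1
        have h4 : Real.log p ≤ ℓ + j + 1 := by
          have h5 := Real.log_le_log hp0 hp.2.2
          rw [Real.log_mul (Real.exp_pos _).ne' (by positivity), Real.log_exp,
            Real.log_mul hL0.ne' (Real.exp_pos _).ne', Real.log_exp] at h5
          linarith
        rw [mul_one_div]
        exact div_le_div_of_nonneg_right h4 hp0.le
      refine (Finset.sum_le_sum h3).trans ?_
      rw [← Finset.mul_sum]
      have h4 := mul_le_mul_of_nonneg_left (hup j) (by linarith : 0 ≤ ℓ + j + 1)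
      refine h4.trans ?_
      have h5 : 0 < ℓ + (j : ℝ) := by linarith
      rw [mul_one_div, mul_div_assoc', div_le_div_iff₀ h5 (by norm_num)]
      linarith
    refine (Finset.sum_le_sum h2).trans ?_
    rw [Finset.sum_const, card_range, nsmul_eq_mul]
    linarith

end

end Pool.Agent.Y872.OM
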